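import Pool.Agent.W670.ML.Defs2

/-!
Project ML2 (helper670): the trace identity in a compositum (S_DE).
-/

set_option autoImplicit false

namespace Pool.Agent.W150.ML2

open Pool.Agent.W670.ML

open Classical in
lemma coef {K B Ω : Type} [Field K] [Field B] [Field Ω] [Algebra K B] [Algebra K Ω]
    [IsAlgClosed Ω] [FiniteDimensional K B] [Algebra.IsSeparable K B] (s : ℕ) (β γ : Fin s → B)
    (h : ∀ y : B, y = ∑ j, Algebra.trace K B (γ j * y) • β j) (σ' σ : B →ₐ[K] Ω) :
    ∑ j, σ (γ j) * σ' (β j) = if σ = σ' then 1 else 0 := by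
  have hinj : Function.Injective (fun τ : B →ₐ[K] Ω => (τ : B →* Ω)) := by
    intro τ τ' hh
    apply AlgHom.ext
    intro y
    exact DFunLike.congr_fun hh y
  have hli := (linearIndependent_monoidHom B Ω).comp _ hinj
  rw [Fintype.linearIndependent_iff] at hli
  have key := hli (fun τ => (∑ j, τ (γ j) * σ' (β j)) - if τ = σ' then 1 else 0) (by
    funext y
    rw [Finset.sum_apply, Pi.zero_apply]
    have e1 : ∑ τ : B →ₐ[K] Ω, (∑ j, τ (γ j) * σ' (β j)) * τ y = σ' y := by
      conv_rhs => rw [h y]
      rw [map_sum]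
      have e2 : ∀ j, σ' (Algebra.trace K B (γ j * y) • β j) =
          ∑ τ : B →ₐ[K] Ω, τ (γ j) * σ' (β j) * τ y := by
        intro j
        rw [map_smul, Algebra.smul_def, trace_eq_sum_embeddings Ω, Finset.sum_mul]
        apply Finset.sum_congr rfl
        intro τ _
        rw [map_mul]
        ring
      rw [Finset.sum_congr rfl fun j _ => e2 j]
      rw [Finset.sum_comm]
      apply Finset.sum_congr rfl
      intro τ _
      rw [Finset.sum_mul]
    have e3 : ∑ τ : B →ₐ[K] Ω, (if τ = σ' then (1 : Ω) else 0) * τ y = σ' y := by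
      rw [Finset.sum_eq_single σ']
      · rw [if_pos rfl, one_mul]
      · intro τ _ hτ
        rw [if_neg hτ, zero_mul]
      · intro hh
        exact absurd (Finset.mem_univ _) hh
    have e4 : ∀ τ : B →ₐ[K] Ω, (((∑ j, τ (γ j) * σ' (β j)) - if τ = σ' then (1 : Ω) else 0) •
        ((fun f : B →* Ω => (f : B → Ω)) ∘ fun τ : B →ₐ[K] Ω => (τ : B →* Ω)) τ) y =
        (∑ j, τ (γ j) * σ' (β j)) * τ y - (if τ = σ' then (1 : Ω) else 0) * τ y := by
      intro τ
      show ((∑ j, τ (γ j) * σ' (β j)) - if τ = σ' then (1 : Ω) else 0) * τ y = _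
      rw [sub_mul]
    refine (Finset.sum_congr rfl fun τ _ => e4 τ).trans ?_
    rw [Finset.sum_sub_distrib, e1, e3, sub_self]) σ
  exact sub_eq_zero.1 key

theorem de : S_DE := by
  classical
  intro K A B M _ _ _ _ _ _ _ _ _ _ _ _ _ _ _ hgen s β γ h x
  have fKB : FiniteDimensional K B := Module.Finite.of_restrictScalars_finite ℚ K B
  have fAM : FiniteDimensional A M := Module.Finite.of_restrictScalars_finite ℚ A M
  let Ω := AlgebraicClosure M
  have t1 : IsScalarTower K B Ω := IsScalarTower.of_algebraMap_eq fun r => by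
    rw [IsScalarTower.algebraMap_apply K M Ω, IsScalarTower.algebraMap_apply B M Ω,
      IsScalarTower.algebraMap_apply K B M]
  have t2 : IsScalarTower K A Ω := IsScalarTower.of_algebraMap_eq fun r => by
    rw [IsScalarTower.algebraMap_apply K M Ω, IsScalarTower.algebraMap_apply A M Ω,
      IsScalarTower.algebraMap_apply K A M]
  let ι : B →ₐ[K] Ω := IsScalarTower.toAlgHom K B Ω
  let inc : M →ₐ[A] Ω := IsScalarTower.toAlgHom A M Ω
  let rB : (M →ₐ[A] Ω) → (B →ₐ[K] Ω) := fun τ =>
    (τ.restrictScalars K).comp (IsScalarTower.toAlgHom K B M)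
  have hrB : ∀ τ : M →ₐ[A] Ω, ι = rB τ → τ = inc := by
    intro τ hτ
    let S : Subalgebra K M := AlgHom.equalizer (τ.restrictScalars K) (inc.restrictScalars K)
    have hS : ∀ m, m ∈ S ↔ τ m = inc m := fun m => Iff.rfl
    let F : IntermediateField K M := S.toIntermediateField (fun m hm => by
      rw [hS] at hm ⊢
      rw [map_inv₀, map_inv₀, hm])
    have hF : F = ⊤ := by
      apply hgen
      · intro a
        show τ (algebraMap A M a) = inc (algebraMap A M a)
        rw [AlgHom.commutes, AlgHom.commutes]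
      · intro b
        show τ (algebraMap B M b) = inc (algebraMap B M b)
        have := DFunLike.congr_fun hτ b
        show τ (algebraMap B M b) = algebraMap M Ω (algebraMap B M b)
        rw [← IsScalarTower.algebraMap_apply B M Ω]
        exact this.symm
    apply AlgHom.ext
    intro m
    have hm : m ∈ F := by
      rw [hF]
      exact IntermediateField.mem_top
    exact hm
  have hinc : ι = rB inc := by
    apply AlgHom.ext
    intro b
    show algebraMap B Ω b = algebraMap M Ω (algebraMap B M b)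
    exact IsScalarTower.algebraMap_apply B M Ω b
  apply (algebraMap M Ω).injective
  rw [map_sum]
  have e1 : ∀ j, algebraMap M Ω (algebraMap A M (Algebra.trace A M (x * algebraMap B M (β j))) *
      algebraMap B M (γ j)) = ∑ τ : M →ₐ[A] Ω, τ x * (ι (γ j) * rB τ (β j)) := by
    intro j
    rw [map_mul, ← IsScalarTower.algebraMap_apply A M Ω, trace_eq_sum_embeddings Ω,
      Finset.sum_mul]
    apply Finset.sum_congr rfl
    intro τ _
    have e2 : algebraMap M Ω (algebraMap B M (γ j)) = ι (γ j) :=
      (IsScalarTower.algebraMap_apply B M Ω (γ j)).symm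
    have e3 : τ (algebraMap B M (β j)) = rB τ (β j) := rfl
    rw [map_mul, e2, e3]
    ring
  simp only [e1]
  rw [Finset.sum_comm]
  have e4 : ∀ τ : M →ₐ[A] Ω, ∑ j, τ x * (ι (γ j) * rB τ (β j)) =
      τ x * if ι = rB τ then 1 else 0 := by
    intro τ
    rw [← Finset.mul_sum, coef s β γ h (rB τ) ι]
  simp only [e4]
  rw [Finset.sum_eq_single inc]
  · rw [if_pos hinc, mul_one]
    rfl
  · intro τ _ hτ
    rw [if_neg (fun hh => hτ (hrB τ hh)), mul_zero]
  · intro hh
    exact absurd (Finset.mem_univ _) hh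

end Pool.Agent.W150.ML2
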